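import Mathlib
import Pool.Agent.H409R2.MkConst

set_option autoImplicit false

/-!
Zagier's second-order asymptotic formula for the number of Markov triples, with his explicit
constant.
-/

namespace Pool.Agent.Results.MP_30e119_nt.ZagierSecondOrder

open Filter Asymptotics

/-- `g x = arccosh (3 x / 2) = log ((3 x + √(9 x ^ 2 - 4)) / 2)` for `x ≥ 2/3` -/
noncomputable def g (x : ℝ) : ℝ := Real.log ((3 * x + Real.sqrt (9 * x ^ 2 - 4)) / 2)

/-- The number of Markov triples `u ≤ v ≤ w` of positive integers with `w ≤ n`. -/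
noncomputable def N (n : ℝ) : ℕ :=
  ((Finset.Icc 1 ⌊n⌋₊ ×ˢ (Finset.Icc 1 ⌊n⌋₊ ×ˢ Finset.Icc 1 ⌊n⌋₊)).filter
    (fun t : ℕ × ℕ × ℕ => t.1 ≤ t.2.1 ∧ t.2.1 ≤ t.2.2 ∧
      t.1 ^ 2 + t.2.1 ^ 2 + t.2.2 ^ 2 = 3 * t.1 * t.2.1 * t.2.2)).card

/-- The set of Markov triples `(a, b, c)` of positive integers with `a < b < c`. -/
def TStar : Set (ℕ × ℕ × ℕ) :=
  {t | 0 < t.1 ∧ t.1 < t.2.1 ∧ t.2.1 < t.2.2 ∧
    t.1 ^ 2 + t.2.1 ^ 2 + t.2.2 ^ 2 = 3 * t.1 * t.2.1 * t.2.2}

/-- The term `(g a + g b - g c) / (g a * g b * g c)` attached to a triple `(a, b, c)`. -/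
noncomputable def term (t : ℕ × ℕ × ℕ) : ℝ :=
  (g t.1 + g t.2.1 - g t.2.2) / (g t.1 * g t.2.1 * g t.2.2)

/-- Zagier's constant. -/
noncomputable def C : ℝ :=
  3 / Real.pi ^ 2 * (1 / (g 1 * g 2) + ∑' t : TStar, term t.1)

open Pool.Agent.H409R2.MZ.Mk (Nd root desc al be ga Pn Pn_inj Ph Ph_pos Ph_surj nd nd_eq zv small_nat PP
  count_eq g_near lam lam_lower lam_pos)

lemma Pn_mem (l : List Bool) : Pn l ∈ TStar := by
  obtain ⟨h1, h2, h3, h4, h5⟩ := Ph_pos l
  have hz := zv l
  have h12 : (Ph (nd l)).1 < (Ph (nd l)).2.1 := by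
    rcases lt_or_eq_of_le h2 with h | h
    · exact h
    · exfalso
      have : min (nd l).a (nd l).b = max (nd l).a (nd l).b := h
      have hne := hz.ne
      omega
  have h23 : (Ph (nd l)).2.1 < (Ph (nd l)).2.2 := by
    show max (nd l).a (nd l).b < (nd l).c
    exact max_lt hz.ac hz.bc
  unfold TStar Pn
  simp only [Set.mem_ofPred_eq]
  have e1 : (((Ph (nd l)).1.toNat : ℕ) : ℤ) = (Ph (nd l)).1 := Int.toNat_of_nonneg (by omega)
  have e2 : (((Ph (nd l)).2.1.toNat : ℕ) : ℤ) = (Ph (nd l)).2.1 := Int.toNat_of_nonneg (by omega)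
  have e3 : (((Ph (nd l)).2.2.toNat : ℕ) : ℤ) = (Ph (nd l)).2.2 := Int.toNat_of_nonneg (by omega)
  refine ⟨by omega, by omega, by omega, ?_⟩
  have : (((Ph (nd l)).1.toNat : ℕ) : ℤ) ^ 2 + (((Ph (nd l)).2.1.toNat : ℕ) : ℤ) ^ 2 +
      (((Ph (nd l)).2.2.toNat : ℕ) : ℤ) ^ 2 = 3 * (((Ph (nd l)).1.toNat : ℕ) : ℤ) *
      (((Ph (nd l)).2.1.toNat : ℕ) : ℤ) * (((Ph (nd l)).2.2.toNat : ℕ) : ℤ) := by
    rw [e1, e2, e3]; exact h5
  exact_mod_cast this

/-- the bijection between the nodes of the tree and the Markov triples with distinct entries -/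
noncomputable def eqv : List Bool ≃ TStar :=
  Equiv.ofBijective (fun l => (⟨Pn l.reverse, Pn_mem l.reverse⟩ : TStar)) (by
    constructor
    · intro l l' h
      have h1 : Pn l.reverse = Pn l'.reverse := congrArg Subtype.val h
      exact List.reverse_injective (Pn_inj h1)
    · rintro ⟨⟨a, b, c⟩, ha, hab, hbc, heq⟩
      simp only at ha hab hbc heq
      have hc5 : 5 ≤ c := by
        by_contra hcon
        have := small_nat a b c ha hab.le hbc.le heq (by omega)
        omega
      obtain ⟨l, hl⟩ := Ph_surj c (a : ℤ) b c le_rfl (by exact_mod_cast ha) (by exact_mod_cast hab.le)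
        (by exact_mod_cast hbc.le) (by exact_mod_cast heq) (by exact_mod_cast hc5)
      refine ⟨l.reverse, ?_⟩
      apply Subtype.ext
      show Pn l.reverse.reverse = (a, b, c)
      rw [List.reverse_reverse]
      unfold Pn
      rw [hl]
      simp)

lemma term_eqv (l : List Bool) : term (eqv l).1 = (al (desc root l) + be (desc root l) - ga (desc root l)) /
    (al (desc root l) * be (desc root l) * ga (desc root l)) := by
  show term (Pn l.reverse) = _
  have hd : desc root l = nd l.reverse := by rw [nd_eq, List.reverse_reverse]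
  rw [hd]
  set X := nd l.reverse with hX
  have hz : Pool.Agent.H409R2.MZ.Mk.Zv X := zv l.reverse
  have hc : ((X.c.toNat : ℕ) : ℝ) = (X.c : ℝ) := by
    have : ((X.c.toNat : ℕ) : ℤ) = X.c := Int.toNat_of_nonneg (by have := hz.c5; omega)
    exact_mod_cast this
  have ha : ((X.a.toNat : ℕ) : ℝ) = (X.a : ℝ) := by
    have : ((X.a.toNat : ℕ) : ℤ) = X.a := Int.toNat_of_nonneg (by have := hz.a1; omega)
    exact_mod_cast this
  have hb : ((X.b.toNat : ℕ) : ℝ) = (X.b : ℝ) := by
    have : ((X.b.toNat : ℕ) : ℤ) = X.b := Int.toNat_of_nonneg (by have := hz.b1; omega)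
    exact_mod_cast this
  have hal : al X = g X.a := rfl
  have hbe : be X = g X.b := rfl
  have hga : ga X = g X.c := rfl
  unfold term Pn
  rw [← hX]
  unfold Ph
  simp only
  rcases le_total X.a X.b with h | h
  · rw [min_eq_left h, max_eq_right h, ha, hb, hc, hal, hbe, hga]
  · rw [min_eq_right h, max_eq_left h, ha, hb, hc, hal, hbe, hga]
    rw [add_comm (g X.b), mul_comm (g X.b)]

lemma C_eq : C = Pool.Agent.H409R2.MkConst.CC := by
  unfold C Pool.Agent.H409R2.MkConst.CC
  rw [← eqv.tsum_eq (fun t : TStar => term t.1)]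
  have h1 : (1 : ℝ) / (g 1 * g 2) = 1 / (al root * be root) := by
    have e1 : al root = g 1 := by
      show g (((1 : ℤ) : ℝ)) = g 1
      norm_num
    have e2 : be root = g 2 := by
      show g (((2 : ℤ) : ℝ)) = g 2
      norm_num
    rw [e1, e2]
  rw [h1]
  congr 2
  apply tsum_congr
  intro l
  exact term_eqv l

/-- **Zagier's second-order asymptotic formula.**  The series in the constant `C` converges and
`N n = C (log (3 n))² + o(log n)`. -/
theorem result :
    Summable (fun t : TStar => term t.1) ∧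
    (fun n : ℝ => (N n : ℝ) - C * (Real.log (3 * n)) ^ 2) =o[atTop] (fun n : ℝ => Real.log n) := by
  constructor
  · rw [← eqv.summable_iff]
    refine Pool.Agent.H409R2.MkConst.summable_terms.congr ?_
    intro l
    exact (term_eqv l).symm
  · have hc := Pool.Agent.H409R2.MkConst.PP_asymp'
    rw [← C_eq] at hc
    set c := C with hcdef
    rw [Asymptotics.isLittleO_iff]
    intro ε hε
    obtain ⟨T0, hT0, hT⟩ := hc (ε / 4) (by positivity)
    have hK : 0 ≤ (2 + 6 * |c|) / (ε / 2) := by positivity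
    rw [Filter.eventually_atTop]
    refine ⟨max 3 (max (Real.exp T0) (Real.exp ((2 + 6 * |c|) / (ε / 2)))), ?_⟩
    intro x hx
    have hx3 : 3 ≤ x := (le_max_left _ _).trans hx
    have hxT : Real.exp T0 ≤ x := ((le_max_left _ _).trans (le_max_right _ _)).trans hx
    have hxK : Real.exp ((2 + 6 * |c|) / (ε / 2)) ≤ x := ((le_max_right _ _).trans (le_max_right _ _)).trans hx
    have hx0 : 0 < x := by linarith
    unfold N
    rw [count_eq x (by linarith)]
    obtain ⟨hg1, hg2⟩ := g_near x (by linarith)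
    have hlog : 1 ≤ Real.log x := by
      rw [Real.le_log_iff_exp_le hx0]
      have := Real.exp_one_lt_d9
      linarith
    have hlogK : (2 + 6 * |c|) / (ε / 2) ≤ Real.log x := (Real.le_log_iff_exp_le hx0).mpr hxK
    have hlog3 : Real.log (3 * x) ≤ 2 * Real.log x := by
      rw [Real.log_mul (by norm_num) hx0.ne']
      have : Real.log 3 ≤ Real.log x := Real.log_le_log (by norm_num) hx3
      linarith
    have hgx : T0 ≤ Pool.Agent.H409R2.MZ.Mk.g x := by
      have h1 : x ≤ lam x := by have := lam_lower x (by linarith); linarith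
      unfold Pool.Agent.H409R2.MZ.Mk.g
      rw [Real.le_log_iff_exp_le (lam_pos x (by linarith))]
      linarith
    have hT1 := hT (Pool.Agent.H409R2.MZ.Mk.g x) hgx
    set T := Pool.Agent.H409R2.MZ.Mk.g x with hTdef
    set L := Real.log (3 * x) with hL
    have hT1' : 1 ≤ T := hT0.trans hgx
    have hL0 : 0 ≤ L := by linarith
    have hLx : L ≤ 3 * x := by
      have := Real.log_le_sub_one_of_pos (by positivity : 0 < 3 * x)
      linarith
    have hsq : |c * (T ^ 2 - L ^ 2)| ≤ 6 * |c| := by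
      rw [abs_mul, mul_comm (6 : ℝ)]
      apply mul_le_mul_of_nonneg_left _ (abs_nonneg c)
      rw [abs_sub_comm, abs_of_nonneg (by nlinarith)]
      have e : L ^ 2 - T ^ 2 = (L - T) * (L + T) := by ring
      rw [e]
      have h1 : (L - T) * (L + T) ≤ 1 / x ^ 2 * (6 * x) := by
        apply mul_le_mul hg2 (by linarith) (by linarith) (by positivity)
      have h2 : 1 / x ^ 2 * (6 * x) = 6 / x := by field_simp
      have h3 : 6 / x ≤ 6 := by
        rw [div_le_iff₀ hx0]; linarith
      linarith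
    rw [Real.norm_eq_abs, Real.norm_eq_abs, abs_of_nonneg (by linarith : 0 ≤ Real.log x)]
    have e : ((2 + PP T : ℕ) : ℝ) - c * L ^ 2 = 2 + (((PP T : ℕ) : ℝ) - c * T ^ 2) + c * (T ^ 2 - L ^ 2) := by
      push_cast; ring
    rw [e]
    have h1 : |2 + (((PP T : ℕ) : ℝ) - c * T ^ 2) + c * (T ^ 2 - L ^ 2)| ≤ 2 + ε / 4 * T + 6 * |c| := by
      refine (abs_add_le _ _).trans ?_
      have h2 : |2 + (((PP T : ℕ) : ℝ) - c * T ^ 2)| ≤ 2 + ε / 4 * T := by
        refine (abs_add_le _ _).trans ?_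
        rw [abs_of_pos (by norm_num : (0 : ℝ) < 2)]
        linarith
      linarith
    have h3 : 2 + 6 * |c| ≤ ε / 2 * Real.log x := by
      rw [div_le_iff₀ (by positivity)] at hlogK
      linarith
    have h4 : ε / 4 * T ≤ ε / 4 * (2 * Real.log x) := mul_le_mul_of_nonneg_left (by linarith) (by positivity)
    linarith

end Pool.Agent.Results.MP_30e119_nt.ZagierSecondOrder
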